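import Mathlib.NumberTheory.ZetaValues
import Mathlib.Analysis.SpecialFunctions.Trigonometric.EulerSineProd
import Mathlib.Analysis.SpecialFunctions.Trigonometric.Sinc
import Mathlib.Analysis.SpecialFunctions.Log.Deriv

/-!
Sixth order upper bound of `sinc` on `[-π, π]`, from the Euler product.
-/

set_option autoImplicit false

open Set Real Filter Topology

namespace Pool.Agent.Helper89.FA

lemma S6.bernoulli'_five' : bernoulli' 5 = 0 :=
  bernoulli'_eq_zero_of_odd (by decide) (by norm_num)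

lemma S6.bernoulli'_six' : bernoulli' 6 = 1 / 42 := by
  have h2 : Nat.choose 6 2 = 15 := by decide
  have h3 : Nat.choose 6 3 = 20 := by decide
  have h4 : Nat.choose 6 4 = 15 := by decide
  have h5 : Nat.choose 6 5 = 6 := by decide
  rw [bernoulli'_def]
  norm_num [Finset.sum_range_succ, Finset.sum_range_zero, h2, h3, h4, h5, S6.bernoulli'_five']

lemma S6.hasSum_zeta_six : HasSum (fun n : ℕ => (1 : ℝ) / (n : ℝ) ^ 6) (π ^ 6 / 945) := by
  convert! hasSum_zeta_nat three_ne_zero using 1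
  simp only [Nat.reduceAdd, Nat.reduceMul, Nat.reduceSub]
  rw [bernoulli_eq_bernoulli'_of_ne_one, S6.bernoulli'_six']
  · simp [Nat.factorial]; ring
  · decide

lemma S6.shift_hasSum {k : ℕ} (hk : k ≠ 0) {s : ℝ}
    (h : HasSum (fun n : ℕ => (1 : ℝ) / (n : ℝ) ^ k) s) :
    HasSum (fun n : ℕ => (1 : ℝ) / ((n : ℝ) + 1) ^ k) s := by
  have h1 := (hasSum_nat_add_iff' 1).mpr h
  simp only [Finset.range_one, Finset.sum_singleton, Nat.cast_zero, Nat.cast_add, Nat.cast_one] at h1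
  rw [zero_pow hk, div_zero, sub_zero] at h1
  exact h1

lemma S6.one_sub_le_exp {u : ℝ} (h0 : 0 ≤ u) (h1 : u ≤ 1) :
    1 - u ≤ exp (-(u + u ^ 2 / 2 + u ^ 3 / 3)) := by
  rcases h1.eq_or_lt with rfl | h1
  · rw [sub_self]; exact (exp_pos _).le
  have hs := hasSum_pow_div_log_of_abs_lt_one (x := u) (by rwa [abs_of_nonneg h0])
  have h2 : ∑ i ∈ Finset.range 3, u ^ (i + 1) / ((i : ℝ) + 1) ≤ -log (1 - u) :=
    sum_le_hasSum _ (fun i _ => by positivity) hs
  have h3 : u + u ^ 2 / 2 + u ^ 3 / 3 ≤ -log (1 - u) := by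
    refine le_trans (le_of_eq ?_) h2
    simp only [Finset.sum_range_succ, Finset.sum_range_zero]
    norm_num
  rw [← exp_log (show (0 : ℝ) < 1 - u by linarith), exp_le_exp]
  linarith

/-- F2a. -/
theorem sinc_le6 {y : ℝ} (hy : |y| ≤ π) :
    sinc y ≤ exp (-(y ^ 2 / 6 + y ^ 4 / 180 + y ^ 6 / 2835)) := by
  rcases eq_or_ne y 0 with rfl | hy0
  · simp
  obtain ⟨x, rfl⟩ : ∃ x, y = π * x := ⟨y / π, by field_simp⟩
  have hpi := pi_pos
  have hx0 : x ≠ 0 := fun h => hy0 (by rw [h, mul_zero])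
  have hx1 : |x| ≤ 1 := by
    rw [abs_mul, abs_of_pos hpi] at hy
    nlinarith
  have hx2 : x ^ 2 ≤ 1 := by
    rw [← sq_abs]; nlinarith [abs_nonneg x]
  rw [sinc_of_ne_zero hy0]
  have hprod := tendsto_euler_sin_prod x
  have hprod' : Tendsto (fun n : ℕ => ∏ j ∈ Finset.range n, ((1 : ℝ) - x ^ 2 / ((j : ℝ) + 1) ^ 2))
      atTop (𝓝 (sin (π * x) / (π * x))) := by
    refine (hprod.div_const (π * x)).congr fun n => ?_
    rw [mul_comm (π * x), mul_div_assoc, div_self hy0, mul_one]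
  have h2 := ((S6.shift_hasSum two_ne_zero hasSum_zeta_two).mul_left (x ^ 2)).add
    (((S6.shift_hasSum four_ne_zero hasSum_zeta_four).mul_left (x ^ 4 / 2)).add
      ((S6.shift_hasSum (by norm_num) S6.hasSum_zeta_six).mul_left (x ^ 6 / 3)))
  have h3 := h2.tendsto_sum_nat
  have h4 : Tendsto (fun n : ℕ => exp (-∑ i ∈ Finset.range n,
      (x ^ 2 * (1 / ((i : ℝ) + 1) ^ 2) + (x ^ 4 / 2 * (1 / ((i : ℝ) + 1) ^ 4) +
        x ^ 6 / 3 * (1 / ((i : ℝ) + 1) ^ 6))))) atTop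
      (𝓝 (exp (-(x ^ 2 * (π ^ 2 / 6) + (x ^ 4 / 2 * (π ^ 4 / 90) + x ^ 6 / 3 * (π ^ 6 / 945)))))) :=
    (continuous_exp.tendsto _).comp h3.neg
  have h5 := le_of_tendsto_of_tendsto' hprod' h4 fun n => by
    rw [← Finset.sum_neg_distrib, exp_sum]
    refine Finset.prod_le_prod (fun j _ => ?_) fun j _ => ?_
    · have : x ^ 2 / ((j : ℝ) + 1) ^ 2 ≤ 1 := by
        rw [div_le_one (by positivity)]
        nlinarith [Nat.cast_nonneg (α := ℝ) j]
      linarith
    · have hu : x ^ 2 / ((j : ℝ) + 1) ^ 2 ≤ 1 := by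
        rw [div_le_one (by positivity)]
        nlinarith [Nat.cast_nonneg (α := ℝ) j]
      refine (S6.one_sub_le_exp (by positivity) hu).trans (le_of_eq ?_)
      congr 2
      field_simp
      ring
  refine h5.trans (le_of_eq ?_)
  congr 2
  ring

end Pool.Agent.Helper89.FA
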